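import Mathlib

/-!
# LVK part Z: definitions (Levinson's method over number fields, MP_77948b_nt)
-/

namespace Pool.Agent.LVK

open Complex MeasureTheory Set Filter Topology
open scoped ENNReal

/-- The point `σ + it`. -/
noncomputable def pt (σ t : ℝ) : ℂ := (σ : ℂ) + (t : ℂ) * I

/-- The closed rectangle `[s1, s2] × [A, B]`. -/
def Rc (s1 s2 A B : ℝ) : Set ℂ := {z | s1 ≤ z.re ∧ z.re ≤ s2 ∧ A ≤ z.im ∧ z.im ≤ B}

/-- `φ ≥ 0` is a `C²` function with `φ' = φ1`, `φ'' = φ2`, all zero outside `(A, B)`. -/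
structure Tst (A B : ℝ) (φ φ1 φ2 : ℝ → ℝ) : Prop where
  d1 : ∀ t, HasDerivAt φ (φ1 t) t
  d2 : ∀ t, HasDerivAt φ1 (φ2 t) t
  c2 : Continuous φ2
  nonneg : ∀ t, 0 ≤ φ t
  z0 : ∀ t, t ∉ Ioo A B → φ t = 0
  z1 : ∀ t, t ∉ Ioo A B → φ1 t = 0
  z2 : ∀ t, t ∉ Ioo A B → φ2 t = 0

/-- `∫ φ(t) log |F(σ + it)| dt`. -/
noncomputable def JJ (A B : ℝ) (φ : ℝ → ℝ) (F : ℂ → ℂ) (σ : ℝ) : ℝ :=
  ∫ t in A..B, φ t * Real.log ‖F (pt σ t)‖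

/-- `∫ φ(t) Re (F'/F)(σ + it) dt`. -/
noncomputable def DD (A B : ℝ) (φ : ℝ → ℝ) (F : ℂ → ℂ) (σ : ℝ) : ℝ :=
  ∫ t in A..B, φ t * (logDeriv F (pt σ t)).re

/-- `S` is the set of all zeros of `F` in the closed rectangle. -/
def IsZ (s1 s2 A B : ℝ) (F : ℂ → ℂ) (S : Finset ℂ) : Prop :=
  ∀ ρ, ρ ∈ S ↔ ρ ∈ Rc s1 s2 A B ∧ F ρ = 0

/-- The number of all zeros `ρ` of `F` with `a < Im ρ < b`, counted with multiplicity. -/
noncomputable def allZ (F : ℂ → ℂ) (a b : ℝ) : ℝ≥0∞ :=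
  ∑' ρ : {ρ : ℂ // a < ρ.im ∧ ρ.im < b}, (analyticOrderNatAt F ρ.1 : ℝ≥0∞)

/-- The number of `t` with `a < t < b` such that `1/2 + it` is a simple zero of `F`. -/
noncomputable def simpZ (F : ℂ → ℂ) (a b : ℝ) : ℝ≥0∞ :=
  ({t : ℝ | a < t ∧ t < b ∧ analyticOrderNatAt F (1 / 2 + t * I) = 1}.encard : ℝ≥0∞)

/-- The data of one character: `ξ` the completed function (real on the critical line), `gm` the
Gamma factor, `L` the L-function, `M` the mollifier. -/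
structure LDat where
  ξ : ℂ → ℂ
  gm : ℂ → ℂ
  L : ℂ → ℂ
  M : ℂ → ℂ

/-- `V = L + (λ/ℒ) L'`. -/
noncomputable def LDat.V (d : LDat) (lam calL : ℝ) : ℂ → ℂ :=
  fun s => d.L s + ((lam / calL : ℝ) : ℂ) * deriv d.L s

/-- `W = V + (λ/ℒ) (gm'/gm - ℒ/2) L`. -/
noncomputable def LDat.W (d : LDat) (lam calL : ℝ) : ℂ → ℂ :=
  fun s => d.V lam calL s +
    ((lam / calL : ℝ) : ℂ) * (logDeriv d.gm s - ((calL / 2 : ℝ) : ℂ)) * d.L s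

/-- `H = (1 - λ/2) ξ + (λ/ℒ) ξ'`, equal to `gm * W` on `Re s > 0`. -/
noncomputable def LDat.H (d : LDat) (lam calL : ℝ) : ℂ → ℂ :=
  fun s => ((1 - lam / 2 : ℝ) : ℂ) * d.ξ s + ((lam / calL : ℝ) : ℂ) * deriv d.ξ s

/-- The individual hypotheses on one character. -/
structure LDat.Ok (d : LDat) (calL C0 s2 T : ℝ) : Prop where
  dxi : Differentiable ℂ d.ξ
  sym : ∀ s, d.ξ (1 - starRingEnd ℂ s) = starRingEnd ℂ (d.ξ s)
  dgm : DifferentiableOn ℂ d.gm {s | 0 < s.re}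
  gm0 : ∀ s, 0 < s.re → d.gm s ≠ 0
  fac : ∀ s, 0 < s.re → d.ξ s = d.gm s * d.L s
  dM : Differentiable ℂ d.M
  g : ∀ s, 1 / 4 ≤ s.re → s.re ≤ 2 * s2 → |s.im| ≤ T →
    ‖logDeriv d.gm s - ((calL / 2 : ℝ) : ℂ)‖ ≤ C0
  rL : ∀ s, s2 - 1 ≤ s.re → ‖d.L s - 1‖ ≤ 1 / 16
  rM : ∀ s, s2 - 1 ≤ s.re → ‖d.M s - 1‖ ≤ 1 / 16

/-- The mean square hypotheses on a finite family of characters.  `R/ℒ` is the distance of the
line `Re s = a = 1/2 - R/ℒ` from the critical line, `n` is the number of characters. -/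
structure FamOk {ι : Type} [Fintype ι] (d : ι → LDat) (calL R lam C1 s2 T x1 x2 cc δ : ℝ) :
    Prop where
  /-- (S1): `L` near and to the right of the critical line -/
  m1 : ∀ σ : ℝ, 1 / 2 - 1 / calL ≤ σ → σ ≤ 2 * s2 →
    ∑ i, ∫ t in (-T)..T, ‖(d i).L (pt σ t)‖ ^ 2 ≤ Fintype.card ι * Real.exp (δ * calL)
  /-- (S2): the sharp mean square on the line `Re s = a` -/
  m2 : ∑ i, ∫ t in x1..x2, ‖(d i).V lam calL (pt (1 / 2 - R / calL) t) *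
      (d i).M (pt (1 / 2 - R / calL) t)‖ ^ 2 ≤ Fintype.card ι * ((x2 - x1) * (cc + δ))
  /-- (S3a): `L M` is bounded in mean square for `Re s ≥ a` -/
  m3a : ∀ σ : ℝ, 1 / 2 - R / calL ≤ σ → σ ≤ 2 * s2 →
    ∑ i, ∫ t in (-T)..T, ‖(d i).L (pt σ t) * (d i).M (pt σ t)‖ ^ 2 ≤ Fintype.card ι * C1
  /-- (S3b): `V M` is bounded in mean square for `Re s ≥ a` -/
  m3b : ∀ σ : ℝ, 1 / 2 - R / calL ≤ σ → σ ≤ 2 * s2 →
    ∑ i, ∫ t in (-T)..T, ‖(d i).V lam calL (pt σ t) * (d i).M (pt σ t)‖ ^ 2 ≤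
      Fintype.card ι * C1
  /-- (S3c): `V M - 1` is small in mean square for `Re s ≥ 1/2 + δ` -/
  m3c : ∀ σ : ℝ, 1 / 2 + δ ≤ σ → σ ≤ 2 * s2 →
    ∑ i, ∫ t in (-T)..T, ‖(d i).V lam calL (pt σ t) * (d i).M (pt σ t) - 1‖ ^ 2 ≤
      Fintype.card ι * δ

/-- The standing size conditions of part Z. -/
structure Par (calL C0 s2 T lam R : ℝ) : Prop where
  lam_pos : 0 < lam
  lam_lt : lam < 2
  R_pos : 0 < R
  C0_nonneg : 0 ≤ C0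
  two_le_s2 : 2 ≤ s2
  one_le_T : 1 ≤ T
  le_calL : 4 * R ≤ calL
  le_calL' : 100 * (C0 + 1) ≤ calL

end Pool.Agent.LVK
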